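import Pool.Agent.Helper90.MZ.StmtsZ

set_option autoImplicit false

namespace Pool.Agent.Helper90.MZ

open Pool.Agent.Helper90.TS

/-- elements fixing `a0` and preserving `Q` -/
def bai_H (G : Type) {V : Type} [Group G] [MulAction G V] (Q a0 : Set V) : Subgroup G where
  carrier := {g | g ∈ Fx G a0 ∧ tr g Q = Q}
  mul_mem' := by
    rintro g h ⟨hg1, hg2⟩ ⟨hh1, hh2⟩
    exact ⟨mul_mem hg1 hh1, by rw [← tr_tr, hh2, hg2]⟩
  one_mem' := ⟨one_mem _, tr_one Q⟩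
  inv_mem' := by
    rintro g ⟨hg1, hg2⟩
    refine ⟨inv_mem hg1, ?_⟩
    conv_lhs => rw [← hg2]
    exact tr_inv_tr g Q

variable {V G : Type} [Group G] [MulAction G V]

theorem bai_memH {Q a0 : Set V} {g : G} : g ∈ bai_H G Q a0 ↔ g ∈ Fx G a0 ∧ tr g Q = Q := Iff.rfl

/-- conjugates of `d` in `Q` -/
def bai_S (G : Type) {V : Type} [Group G] [MulAction G V] (Q a0 : Set V) (d x : ℕ → V) : Prop :=
  Set.range x ⊆ Q ∧ SqEq G a0 d x

theorem bai_memQ {Q a0 : Set V} {g : G} (hg : g ∈ bai_H G Q a0) {x : V} (hx : x ∈ Q) :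
    g • x ∈ Q := by
  have : g • x ∈ tr g Q := ⟨x, hx, rfl⟩
  rwa [hg.2] at this

theorem bai_smul {Q a0 : Set V} {d x : ℕ → V} {g : G} (hg : g ∈ bai_H G Q a0)
    (hx : bai_S G Q a0 d x) : bai_S G Q a0 d (fun i => g • x i) := by
  refine ⟨?_, sqeq_trans hx.2 ⟨g, hg.1, fun _ => rfl⟩⟩
  rintro _ ⟨i, rfl⟩
  exact bai_memQ hg (hx.1 ⟨i, rfl⟩)

/-- the orbit of `x` under `H ∩ Fx c` is dense near `x` -/
def bai_E (G : Type) {V : Type} [Group G] [MulAction G V] (Q a0 c : Set V) (d x : ℕ → V)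
    (m : ℕ) : Prop :=
  ∀ y, bai_S G Q a0 d y → (∀ i < m, y i = x i) →
    ∀ k, ∃ h ∈ bai_H G Q a0, h ∈ Fx G c ∧ ∀ i < k, h • x i = y i

theorem bai_E_mono {Q a0 c : Set V} {d x : ℕ → V} {m m' : ℕ} (hm : m ≤ m')
    (h : bai_E G Q a0 c d x m) : bai_E G Q a0 c d x m' :=
  fun y hy hyx => h y hy (fun i hi => hyx i (by omega))

theorem bai_closed (X : Ctx V G) {Q a0 : Set V} {d x : ℕ → V} (ha0 : a0.Countable)
    (h : ∀ n, ∃ y, bai_S G Q a0 d y ∧ ∀ i < n, y i = x i) : bai_S G Q a0 d x := by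
  refine ⟨?_, st_TYPS V G X a0 ha0 d x fun n => ?_⟩
  · rintro _ ⟨i, rfl⟩
    obtain ⟨y, hy, hyx⟩ := h (i + 1)
    rw [← hyx i (by omega)]
    exact hy.1 ⟨i, rfl⟩
  · obtain ⟨y, hy, hyx⟩ := h n
    obtain ⟨g, hg, hgy⟩ := hy.2
    refine ⟨g, hg, ?_⟩
    ext i
    change g • d i = x i
    rw [hgy i, hyx i i.2]

/-- the step of the Baire category argument -/
theorem bai_step {Q a0 c : Set V} {d : ℕ → V}
    (hbad : ∀ m, ¬ bai_E G Q a0 c d d m) (g : G) (hg : g ∈ bai_H G Q a0) (x : ℕ → V) (m : ℕ)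
    (hx : bai_S G Q a0 d x) : ∃ (x' : ℕ → V) (m' : ℕ), bai_S G Q a0 d x' ∧ m < m' ∧
      (∀ j < m, x' j = x j) ∧ ∀ y : ℕ → V, (∀ j < m', y j = x' j) →
        ∀ h ∈ bai_H G Q a0, h ∈ Fx G c → ¬ ∀ j, g • h • d j = y j := by
  by_cases hA : ∃ k, ∀ h ∈ bai_H G Q a0, h ∈ Fx G c → ¬ ∀ i < k, g • h • d i = x i
  · obtain ⟨k, hk⟩ := hA
    refine ⟨x, max (m + 1) k, hx, by omega, fun _ _ => rfl, ?_⟩
    intro y hy h hh hhc hall
    apply hk h hh hhc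
    intro i hi
    rw [hall i]
    exact hy i (lt_of_lt_of_le hi (le_max_right _ _))
  · push Not at hA
    obtain ⟨h0, hh0, hh0c, hm0⟩ := hA m
    have hb := hbad m
    unfold bai_E at hb
    push Not at hb
    obtain ⟨y0, hy0, hy0d, k, hk⟩ := hb
    have hgh : g * h0 ∈ bai_H G Q a0 := mul_mem hg hh0
    refine ⟨fun i => (g * h0) • y0 i, max (m + 1) k, bai_smul hgh hy0, by omega, ?_, ?_⟩
    · intro j hj
      change (g * h0) • y0 j = x j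
      rw [hy0d j hj, mul_smul]
      exact hm0 j hj
    · intro y hy h hh hhc hall
      obtain ⟨i, hi, hne⟩ := hk (h0⁻¹ * h) (mul_mem (inv_mem hh0) hh)
        (mul_mem (inv_mem hh0c) hhc)
      apply hne
      have e1 := hall i
      have e2 := hy i (lt_of_lt_of_le hi (le_max_right _ _))
      rw [e2] at e1
      change g • h • d i = (g * h0) • y0 i at e1
      rw [mul_smul] at e1
      have e3 : h • d i = h0 • y0 i := smul_left_cancel g e1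
      rw [mul_smul, e3, inv_smul_smul]

theorem bai_Ed (X : Ctx V G) {Q a0 c : Set V} {d : ℕ → V} (hQ : Q.Countable) (ha0 : a0.Finite)
    (hd : Set.range d ⊆ Q)
    (H : ∀ d' : ℕ → V, Set.range d' ⊆ Q → SqEq G a0 d d' → ∃ g ∈ Fx G a0, tr g Q = Q ∧
      ∀ i, g • d i = d' i) (hc : c.Finite) (hcQ : c ⊆ Q) : ∃ m, bai_E G Q a0 c d d m := by
  by_contra hbad
  push Not at hbad
  obtain ⟨n, ε, hε⟩ := hc.fin_param
  have hεr : Set.range ε = c := hε.2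
  -- countably many images of `ε`
  set O : Set (Fin n → V) := {x | ∃ h ∈ bai_H G Q a0, h • ε = x} with hO
  have hOc : O.Countable := by
    have h1 : O ⊆ {x : Fin n → V | ∀ i, x i ∈ Q} := by
      rintro x ⟨h, hh, rfl⟩ i
      exact bai_memQ hh (hcQ (hεr ▸ ⟨i, rfl⟩))
    have h2 : O ⊆ Set.univ.pi (fun _ : Fin n => Q) := by
      intro x hx
      rw [Set.mem_univ_pi]
      exact h1 hx
    exact (Set.countable_univ_pi fun _ => hQ).mono h2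
  have hOn : O.Nonempty := ⟨ε, 1, one_mem _, one_smul _ _⟩
  obtain ⟨w, hw⟩ := hOc.exists_eq_range hOn
  have hwO : ∀ i, ∃ h ∈ bai_H G Q a0, h • ε = w i := fun i => by
    have : w i ∈ O := hw ▸ ⟨i, rfl⟩
    exact this
  choose g hg hgw using hwO
  have hcov : ∀ x, bai_S G Q a0 d x → ∃ i, ∃ h ∈ bai_H G Q a0, h ∈ Fx G c ∧
      ∀ j, g i • h • d j = x j := by
    intro x hx
    obtain ⟨h, hh1, hh2, hh3⟩ := H x hx.1 hx.2
    have hh : h ∈ bai_H G Q a0 := ⟨hh1, hh2⟩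
    have hm : h • ε ∈ O := ⟨h, hh, rfl⟩
    rw [hw] at hm
    obtain ⟨i, hi⟩ := hm
    refine ⟨i, (g i)⁻¹ * h, mul_mem (inv_mem (hg i)) hh, ?_, ?_⟩
    · rw [← hεr, fx_range, mul_smul, ← hi, ← hgw i, inv_smul_smul]
    · intro j
      rw [mul_smul, smul_inv_smul]
      exact hh3 j
  have hd0 : bai_S G Q a0 d d := ⟨hd, sqeq_refl _ _⟩
  -- the recursion
  have hstep : ∀ (i : ℕ) (s : {p : (ℕ → V) × ℕ // bai_S G Q a0 d p.1}),
      ∃ s' : {p : (ℕ → V) × ℕ // bai_S G Q a0 d p.1}, s.1.2 < s'.1.2 ∧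
        (∀ j < s.1.2, s'.1.1 j = s.1.1 j) ∧ ∀ y : ℕ → V, (∀ j < s'.1.2, y j = s'.1.1 j) →
          ∀ h ∈ bai_H G Q a0, h ∈ Fx G c → ¬ ∀ j, g i • h • d j = y j := by
    intro i s
    obtain ⟨x', m', h1, h2, h3, h4⟩ := bai_step hbad (g i) (hg i) s.1.1 s.1.2 s.2
    exact ⟨⟨(x', m'), h1⟩, h2, h3, h4⟩
  choose F hF1 hF2 hF3 using hstep
  let S : ℕ → {p : (ℕ → V) × ℕ // bai_S G Q a0 d p.1} :=
    fun n => Nat.rec ⟨(d, 0), hd0⟩ (fun i s => F i s) n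
  have hS : ∀ i, S (i + 1) = F i (S i) := fun _ => rfl
  have hm : ∀ i, i ≤ (S i).1.2 := by
    intro i
    induction i with
    | zero => exact Nat.zero_le _
    | succ i ih =>
      have := hF1 i (S i)
      rw [← hS] at this
      omega
  have hmono : ∀ i k, (S i).1.2 ≤ (S (i + k)).1.2 ∧
      ∀ j < (S i).1.2, (S (i + k)).1.1 j = (S i).1.1 j := by
    intro i k
    induction k with
    | zero => exact ⟨le_rfl, fun _ _ => rfl⟩
    | succ k ih =>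
      have h1 := hF1 (i + k) (S (i + k))
      have h2 := hF2 (i + k) (S (i + k))
      rw [← hS] at h1 h2
      refine ⟨by rw [← add_assoc]; omega, fun j hj => ?_⟩
      rw [← add_assoc, h2 j (lt_of_lt_of_le hj ih.1), ih.2 j hj]
  let z : ℕ → V := fun j => (S (j + 1)).1.1 j
  have hz : ∀ i, ∀ j < (S i).1.2, z j = (S i).1.1 j := by
    intro i j hj
    change (S (j + 1)).1.1 j = (S i).1.1 j
    rcases le_total i (j + 1) with h | h
    · obtain ⟨k, hk⟩ := Nat.exists_eq_add_of_le h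
      rw [hk]
      exact (hmono i k).2 j hj
    · obtain ⟨k, hk⟩ := Nat.exists_eq_add_of_le h
      rw [hk]
      exact ((hmono (j + 1) k).2 j (lt_of_lt_of_le (Nat.lt_succ_self j) (hm _))).symm
  have hzS : bai_S G Q a0 d z := bai_closed X ha0.countable fun n =>
    ⟨(S n).1.1, (S n).2, fun i hi => (hz n i (lt_of_lt_of_le hi (hm n))).symm⟩
  obtain ⟨i, h, hh, hhc, hall⟩ := hcov z hzS
  refine hF3 i (S i) z ?_ h hh hhc hall
  intro j hj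
  rw [← hS] at hj
  exact hz (i + 1) j hj

theorem bai_Ex (X : Ctx V G) {Q a0 c : Set V} {d : ℕ → V} (hQ : Q.Countable) (ha0 : a0.Finite)
    (hd : Set.range d ⊆ Q)
    (H : ∀ d' : ℕ → V, Set.range d' ⊆ Q → SqEq G a0 d d' → ∃ g ∈ Fx G a0, tr g Q = Q ∧
      ∀ i, g • d i = d' i) (hc : c.Finite) (hcQ : c ⊆ Q) (x : ℕ → V)
    (hx : bai_S G Q a0 d x) : ∃ m, bai_E G Q a0 c d x m := by
  obtain ⟨g0, h1, h2, h3⟩ := H x hx.1 hx.2
  have hg0 : g0 ∈ bai_H G Q a0 := ⟨h1, h2⟩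
  have hcQ' : tr g0⁻¹ c ⊆ Q := by
    rintro _ ⟨v, hv, rfl⟩
    exact bai_memQ (inv_mem hg0) (hcQ hv)
  obtain ⟨m, hm⟩ := bai_Ed X hQ ha0 hd H (tr_finite g0⁻¹ hc) hcQ'
  refine ⟨m, fun y hy hyx k => ?_⟩
  obtain ⟨h, hh, hhc, hk⟩ := hm (fun i => g0⁻¹ • y i) (bai_smul (inv_mem hg0) hy)
    (fun i hi => by rw [hyx i hi, ← h3 i, inv_smul_smul]) k
  refine ⟨g0 * h * g0⁻¹, mul_mem (mul_mem hg0 hh) (inv_mem hg0), ?_, fun i hi => ?_⟩
  · have := (fx_conj (g := g0) (h := h) (A := tr g0⁻¹ c)).2 hhc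
    rwa [tr_tr_inv] at this
  · rw [mul_smul, mul_smul, ← h3 i, inv_smul_smul, hk i hi, smul_inv_smul]

/-- the combined back and forth step -/
theorem bai_bf (X : Ctx V G) {Q a0 a : Set V} {d d' : ℕ → V} (hQ : Q.Countable)
    (ha0 : a0.Finite) (hd : Set.range d ⊆ Q)
    (H : ∀ d' : ℕ → V, Set.range d' ⊆ Q → SqEq G a0 d d' → ∃ g ∈ Fx G a0, tr g Q = Q ∧
      ∀ i, g • d i = d' i) (hd' : bai_S G Q a0 d d') (g : G) (c : Set V) (m : ℕ) (q : V)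
    (hq : q ∈ Q) (hg : g ∈ bai_H G Q a0) (hga : g ∈ Fx G a) (hac : a ⊆ c) (hc : c.Finite)
    (hcQ : c ⊆ Q) (hgm : ∀ i < m, g • d i = d' i) (hE : bai_E G Q a0 c d d m) :
    ∃ (g' : G) (c' : Set V) (m' : ℕ), g' ∈ bai_H G Q a0 ∧ g' ∈ Fx G a ∧ c ⊆ c' ∧ c'.Finite ∧
      c' ⊆ Q ∧ (∀ i < m', g' • d i = d' i) ∧ bai_E G Q a0 c' d d m' ∧ m < m' ∧
      (∀ x ∈ c, g' • x = g • x) ∧ q ∈ c' ∧ q ∈ tr g' c' := by
  have hd0 : bai_S G Q a0 d d := ⟨hd, sqeq_refl _ _⟩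
  -- back
  set c1 : Set V := tr g c ∪ {q} with hc1
  have hc1f : c1.Finite := (tr_finite g hc).union (Set.finite_singleton q)
  have hc1Q : c1 ⊆ Q := by
    rintro v (⟨u, hu, rfl⟩ | hv)
    · exact bai_memQ hg (hcQ hu)
    · rw [Set.mem_singleton_iff] at hv
      rwa [hv]
  obtain ⟨m1, hm1⟩ := bai_Ex X hQ ha0 hd H hc1f hc1Q d' hd'
  obtain ⟨h, hh, hhc, hhm⟩ := hE (fun i => g⁻¹ • d' i) (bai_smul (inv_mem hg) hd')
    (fun i hi => by rw [← hgm i hi, inv_smul_smul]) (max (m + 1) m1)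
  set g1 : G := g * h with hg1
  have hg1H : g1 ∈ bai_H G Q a0 := mul_mem hg hh
  have hg1a : g1 ∈ Fx G a := mul_mem hga (fx_anti hac hhc)
  have hg1c : ∀ x ∈ c, g1 • x = g • x := by
    intro x hx
    rw [hg1, mul_smul, hhc x hx]
  have hg1m : ∀ i < max (m + 1) m1, g1 • d i = d' i := by
    intro i hi
    rw [hg1, mul_smul, hhm i hi, smul_inv_smul]
  set c2 : Set V := tr g1⁻¹ c1 with hc2
  have hc2f : c2.Finite := tr_finite g1⁻¹ hc1f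
  have hc2Q : c2 ⊆ Q := by
    rintro _ ⟨v, hv, rfl⟩
    exact bai_memQ (inv_mem hg1H) (hc1Q hv)
  have hcc2 : c ⊆ c2 := by
    intro x hx
    rw [hc2, mem_tr, inv_inv, hg1c x hx]
    exact Or.inl ⟨x, hx, rfl⟩
  have htc2 : tr g1 c2 = c1 := tr_tr_inv g1 c1
  have hE1 := bai_E_mono (le_max_right (m + 1) m1) hm1
  -- forth
  set c3 : Set V := c2 ∪ {q} with hc3
  have hc3f : c3.Finite := hc2f.union (Set.finite_singleton q)
  have hc3Q : c3 ⊆ Q := by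
    rintro v (hv | hv)
    · exact hc2Q hv
    · rw [Set.mem_singleton_iff] at hv
      rwa [hv]
  obtain ⟨m2, hm2⟩ := bai_Ed X hQ ha0 hd H hc3f hc3Q
  obtain ⟨k, hk, hkc, hkm⟩ := hE1 (fun i => g1 • d i) (bai_smul hg1H hd0)
    (fun i hi => hg1m i hi) (max (max (m + 1) m1) m2)
  set g2 : G := k⁻¹ * g1 with hg2
  have hg2H : g2 ∈ bai_H G Q a0 := mul_mem (inv_mem hk) hg1H
  have hg2c : ∀ x ∈ c2, g2 • x = g1 • x := by
    intro x hx
    have h1 : g1 • x ∈ c1 := by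
      rw [← htc2]
      exact ⟨x, hx, rfl⟩
    rw [hg2, mul_smul, inv_smul_eq_iff, hkc _ h1]
  refine ⟨g2, c3, max (max (m + 1) m1) m2, hg2H, ?_, hcc2.trans Set.subset_union_left, hc3f,
    hc3Q, ?_, bai_E_mono (le_max_right _ _) hm2, by omega, ?_, Or.inr rfl, ?_⟩
  · intro x hx
    rw [hg2c x (hcc2 (hac hx))]
    exact hg1a x hx
  · intro i hi
    rw [hg2, mul_smul, inv_smul_eq_iff, hkm i hi]
  · intro x hx
    rw [hg2c x (hcc2 hx), hg1c x hx]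
  · have h1 : q ∈ tr g1 c2 := by
      rw [htc2]
      exact Or.inr rfl
    obtain ⟨x, hx, hxq⟩ := h1
    refine ⟨x, Or.inl hx, ?_⟩
    change g1 • x = q at hxq
    change g2 • x = q
    rw [hg2c x hx, hxq]

theorem st_BAI : ST_BAI := by
  intro V G _ _ X Q a0 a d d' hQ _ ha0 hd H haQ ha hle hap
  -- `d'` is a conjugate of `d`
  have hd' : bai_S G Q a0 d d' := by
    refine bai_closed X ha0.countable fun n => ?_
    obtain ⟨g, hg, hgQ, hgn⟩ := hap n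
    have hgH : g ∈ bai_H G Q a0 := ⟨hle hg, hgQ⟩
    exact ⟨fun i => g • d i, bai_smul hgH ⟨hd, sqeq_refl _ _⟩, hgn⟩
  obtain ⟨q, hq⟩ := hQ.exists_eq_range ⟨d 0, hd ⟨0, rfl⟩⟩
  have hqQ : ∀ n, q n ∈ Q := fun n => hq ▸ ⟨n, rfl⟩
  obtain ⟨m0, hm0⟩ := bai_Ed X hQ ha0 hd H ha haQ
  obtain ⟨g0, hg0, hg0Q, hg0n⟩ := hap m0
  let T : Type := {s : G × Set V × ℕ // s.1 ∈ bai_H G Q a0 ∧ s.1 ∈ Fx G a ∧ a ⊆ s.2.1 ∧
    s.2.1.Finite ∧ s.2.1 ⊆ Q ∧ (∀ i < s.2.2, s.1 • d i = d' i) ∧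
    bai_E G Q a0 s.2.1 d d s.2.2}
  have hstep : ∀ (n : ℕ) (s : T), ∃ s' : T, s.1.2.1 ⊆ s'.1.2.1 ∧ s.1.2.2 < s'.1.2.2 ∧
      (∀ x ∈ s.1.2.1, s'.1.1 • x = s.1.1 • x) ∧ q n ∈ s'.1.2.1 ∧ q n ∈ tr s'.1.1 s'.1.2.1 := by
    rintro n ⟨⟨g, c, m⟩, h1, h2, h3, h4, h5, h6, h7⟩
    obtain ⟨g', c', m', k1, k2, k3, k4, k5, k6, k7, k8, k9, k10, k11⟩ :=
      bai_bf X hQ ha0 hd H hd' g c m (q n) (hqQ n) h1 h2 h3 h4 h5 h6 h7
    exact ⟨⟨⟨g', c', m'⟩, k1, k2, h3.trans k3, k4, k5, k6, k7⟩, k3, k8, k9, k10, k11⟩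
  choose F hF1 hF2 hF3 hF4 hF5 using hstep
  let s0 : T := ⟨⟨g0, a, m0⟩, ⟨hle hg0, hg0Q⟩, hg0, le_rfl, ha, haQ, hg0n, hm0⟩
  let S : ℕ → T := fun n => Nat.rec s0 (fun i s => F i s) n
  have hS : ∀ i, S (i + 1) = F i (S i) := fun _ => rfl
  have hm : ∀ i, i ≤ (S i).1.2.2 := by
    intro i
    induction i with
    | zero => exact Nat.zero_le _
    | succ i ih =>
      have := hF2 i (S i)
      rw [← hS] at this
      omega
  have hmono : ∀ i k, (S i).1.2.1 ⊆ (S (i + k)).1.2.1 ∧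
      ∀ x ∈ (S i).1.2.1, (S (i + k)).1.1 • x = (S i).1.1 • x := by
    intro i k
    induction k with
    | zero => exact ⟨le_rfl, fun _ _ => rfl⟩
    | succ k ih =>
      have h1 := hF1 (i + k) (S (i + k))
      have h2 := hF3 (i + k) (S (i + k))
      rw [← hS] at h1 h2
      refine ⟨ih.1.trans h1, fun x hx => ?_⟩
      rw [← add_assoc, h2 x (ih.1 hx), ih.2 x hx]
  have hmono' : ∀ i j, i ≤ j → ∀ x ∈ (S i).1.2.1, (S j).1.1 • x = (S i).1.1 • x := by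
    intro i j hij
    obtain ⟨k, rfl⟩ := Nat.exists_eq_add_of_le hij
    exact (hmono i k).2
  have hqm : ∀ n, q n ∈ (S (n + 1)).1.2.1 := fun n => hS n ▸ hF4 n (S n)
  have hqt : ∀ n, q n ∈ tr (S (n + 1)).1.1 (S (n + 1)).1.2.1 := fun n => hS n ▸ hF5 n (S n)
  -- the limit
  obtain ⟨g, hga, hgq⟩ := st_TYPS V G X a ha.countable q (fun j => (S (j + 1)).1.1 • q j)
    (fun n => ⟨(S (n + 1)).1.1, (S (n + 1)).2.2.1, by
      ext i
      change (S (n + 1)).1.1 • q i = (S (i + 1)).1.1 • q i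
      exact hmono' (i + 1) (n + 1) (by omega) _ (hqm i)⟩)
  have hgN : ∀ j N, j + 1 ≤ N → g • q j = (S N).1.1 • q j := by
    intro j N hN
    rw [hgq j]
    exact (hmono' (j + 1) N hN _ (hqm j)).symm
  have hQr : ∀ x ∈ Q, ∃ j, q j = x := by
    intro x hx
    rw [hq] at hx
    exact hx
  refine ⟨g, hga, ?_, ?_⟩
  · ext x
    constructor
    · rintro ⟨y, hy, rfl⟩
      obtain ⟨j, rfl⟩ := hQr y hy
      change g • q j ∈ Q
      rw [hgq j]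
      exact bai_memQ (S (j + 1)).2.1 (hqQ j)
    · intro hx
      obtain ⟨n, rfl⟩ := hQr x hx
      obtain ⟨y, hy, hyq⟩ := hqt n
      obtain ⟨j, rfl⟩ := hQr y ((S (n + 1)).2.2.2.2.2.1 hy)
      refine ⟨q j, hqQ j, ?_⟩
      change g • q j = q n
      change (S (n + 1)).1.1 • q j = q n at hyq
      rw [hgN j (max (j + 1) (n + 1)) (le_max_left _ _),
        hmono' (n + 1) _ (le_max_right _ _) _ hy, hyq]
  · intro i
    obtain ⟨j, hj⟩ := hQr (d i) (hd ⟨i, rfl⟩)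
    rw [← hj, hgN j (max (j + 1) (i + 1)) (le_max_left _ _), hj]
    exact (S (max (j + 1) (i + 1))).2.2.2.2.2.2.1 i
      (lt_of_lt_of_le (lt_of_lt_of_le (Nat.lt_succ_self i) (le_max_right (j + 1) _)) (hm _))

end Pool.Agent.Helper90.MZ
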