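import Pool.Agent.Helper90.MZ.StmtsC

set_option autoImplicit false

namespace Pool.Agent.Helper90.MZ

open Pool.Agent.Helper90.TS

theorem fo_mv_mv {V G : Type} [Group G] [MulAction G V] (g h : G) (p : Ty V) :
    mv g (mv h p) = mv (g * h) p := by
  unfold mv
  simp only [Ty.mk.injEq]
  refine ⟨tr_tr g h p.A, ?_, (mul_smul g h p.z).symm⟩
  ext x
  simp only [Set.mem_ofPred_eq, mul_inv_rev, mul_smul]

theorem fo_key (h1 : ST_MDLB) (h4 : ST_NOEQ) (h5 : ST_INVA)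
    {V G : Type} [Group G] [MulAction G V] (X : Ctx V G) (b : Set V) (q : Ty V)
    (hb : b.Countable) (hq : SR X q) (hS : Sup X b q) (hst : Stn X b q.A) (σ : G)
    (hσ : σ ∈ Fx G b) : NO X (mv σ q) q := by
  obtain ⟨n1, n2, n3⟩ := h4 V G X
  have hC : (q.A ∪ tr σ q.A).Countable := hq.cnt.union (tr_countable σ hq.cnt)
  obtain ⟨M, hM, hbM, hind⟩ := (h1 V G X).2.1 b (q.A ∪ tr σ q.A) b le_rfl hb hC
    (si_self_left hb hC le_rfl)
  obtain ⟨r, hr, hrM, hrq⟩ := hS M hM hbM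
  have hMc : M.Countable := hM.1
  have i1 : SI X b q.A M := si_symm hb hMc hq.cnt
    (si_right hb hMc hC Set.subset_union_left hind)
  have i2 : SI X b (tr σ q.A) M := si_symm hb hMc (tr_countable σ hq.cnt)
    (si_right hb hMc hC Set.subset_union_right hind)
  obtain ⟨h, hh, hx⟩ := hst M hMc σ hσ i1 i2
  have hhM : h ∈ Fx G M := (fx_union.1 hh).2
  have sr1 : SR X (mv h r) := (h5 V G X h).2.2.1 r hr
  have sr2 : SR X (mv h q) := (h5 V G X h).2.2.1 q hq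
  have sr3 : SR X (mv σ q) := (h5 V G X σ).2.2.1 q hq
  have e1 : NO X (mv h r) r :=
    ((h5 V G X h).2.2.2.2.2.2.2.2.2.2.2 r hr (fx_anti hrM hhM)).2.2.2
  have e2 : NO X (mv h r) (mv h q) := (h5 V G X h).2.2.2.1 r q hrq
  have e3 : NO X r (mv h q) := n3 r (mv h r) (mv h q) hr sr1 sr2 (n2 _ _ e1) e2
  have e4 : NO X q (mv h q) := n3 q r (mv h q) hq hr sr2 (n2 _ _ hrq) e3
  have hτ : h⁻¹ * σ ∈ Fx G q.A := by
    intro x hxA
    rw [mul_smul, ← hx x hxA, inv_smul_smul]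
  have e5 : NO X (mv (h⁻¹ * σ) q) q :=
    ((h5 V G X (h⁻¹ * σ)).2.2.2.2.2.2.2.2.2.2.2 q hq hτ).2.2.2
  have e6 : NO X (mv h (mv (h⁻¹ * σ) q)) (mv h q) := (h5 V G X h).2.2.2.1 _ _ e5
  rw [fo_mv_mv, mul_inv_cancel_left] at e6
  exact n3 _ _ _ sr3 sr2 hq e6 (n2 _ _ e4)

theorem st_FO (h1 : ST_MDLB) (h2 : ST_STN) (h3 : ST_SUPU) (h4 : ST_NOEQ) (h5 : ST_INVA) :
    ST_FO := by
  intro V G _ _ X b q hb hq hqf hS
  obtain ⟨e, he, hef, hst⟩ := (h2 V G X).2.2.2.2.2.2 b q.A hb.countable hqf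
  have hbe : (b ∪ e).Countable := (hb.union hef).countable
  have hS' : Sup X (b ∪ e) q := (h3 V G X).2.1 b (b ∪ e) q Set.subset_union_left hS
  have k1 : ∀ σ ∈ Fx G (b ∪ e), NO X (mv σ q) q := fun σ hσ =>
    fo_key h1 h4 h5 X (b ∪ e) q hbe hq hS' hst σ hσ
  refine ⟨⟨e, he, hef, k1⟩, ?_, fun hs σ hσ => fo_key h1 h4 h5 X b q hb.countable hq hS hs σ hσ⟩
  obtain ⟨n, ε, hε⟩ := hef.fin_param
  have hε' : Set.range ε = e := by
    rw [← hε.2]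
  have hfin : {e' : Fin n → V | ∃ g ∈ Fx G b, g • ε = e'}.Finite :=
    (a_aclb V G X b hb.countable).2.2.2.2.2.2 (Fin n) ε (by rw [hε']; exact he)
  have : Finite {e' : Fin n → V | ∃ g ∈ Fx G b, g • ε = e'} := hfin
  obtain ⟨m, ⟨φ⟩⟩ := Finite.exists_equiv_fin {e' : Fin n → V | ∃ g ∈ Fx G b, g • ε = e'}
  refine ⟨m, fun i => (φ.symm i).2.choose, fun i => (φ.symm i).2.choose_spec.1, ?_⟩
  intro σ hσ
  have hm : σ • ε ∈ {e' : Fin n → V | ∃ g ∈ Fx G b, g • ε = e'} := ⟨σ, hσ, rfl⟩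
  refine ⟨φ ⟨σ • ε, hm⟩, ?_⟩
  set i := φ ⟨σ • ε, hm⟩ with hi
  set τ := (φ.symm i).2.choose with hτ
  have t1 : τ ∈ Fx G b := (φ.symm i).2.choose_spec.1
  have t2 : τ • ε = σ • ε := by
    have := (φ.symm i).2.choose_spec.2
    rw [hi, Equiv.symm_apply_apply] at this
    rw [hτ, hi]
    simpa using this
  have t3 : τ⁻¹ * σ ∈ Fx G (b ∪ e) := by
    rw [fx_union]
    refine ⟨mul_mem (inv_mem t1) hσ, ?_⟩
    rw [← hε', fx_range, mul_smul, ← t2, inv_smul_smul]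
  have t4 : NO X (mv τ (mv (τ⁻¹ * σ) q)) (mv τ q) := (h5 V G X τ).2.2.2.1 _ _ (k1 _ t3)
  rw [fo_mv_mv, mul_inv_cancel_left] at t4
  exact t4

end Pool.Agent.Helper90.MZ
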