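import Pool.Agent.Helper90.MZ.StmtsZ

set_option autoImplicit false

namespace Pool.Agent.Helper90.MZ

open Pool.Agent.Helper90.TS

variable {V G : Type} [Group G] [MulAction G V]

theorem loc_rl_mono {X : Ctx V G} {p : Ty V} {B B' : Set V} {y : Fin 1 → V}
    (hp : p.A.Countable) (hB : B.Countable) (h : B' ⊆ B) (hr : Rl X p B y) : Rl X p B' y :=
  ⟨hr.1, si_right hp (Set.countable_range y) hB h hr.2⟩

/-- finite part of the basis -/
def loc_W {κ : Type} (a : Set V) (z : κ → Fin 1 → V) (c : κ → Set V) (I : Set κ) : Set V :=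
  a ∪ ⋃ i ∈ I, (Set.range (z i) ∪ c i)

theorem loc_W_mono {κ : Type} {a : Set V} {z : κ → Fin 1 → V} {c : κ → Set V} {I J : Set κ}
    (h : I ⊆ J) : loc_W a z c I ⊆ loc_W a z c J :=
  Set.union_subset_union_right _ (Set.biUnion_subset_biUnion_left h)

theorem loc_W_sub {κ : Type} {a : Set V} {z : κ → Fin 1 → V} {c : κ → Set V} {I : Set κ} :
    loc_W a z c I ⊆ WW a z c :=
  Set.union_subset_union_right _ (Set.iUnion₂_subset fun i _ => Set.subset_iUnion
    (fun i => Set.range (z i) ∪ c i) i)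

theorem loc_finW {κ : Type} {a : Set V} {z : κ → Fin 1 → V} {c : κ → Set V} {d : ℕ → V}
    {H : Set V} (hH : H.Finite) (hs : H ⊆ WW a z c ∪ Set.range d) :
    ∃ (I : Set κ) (n : ℕ), I.Finite ∧ H ⊆ loc_W a z c I ∪ ini d n := by
  have h1 : ∀ x, x ∈ H → ∃ (I : Set κ) (n : ℕ), I.Finite ∧ x ∈ loc_W a z c I ∪ ini d n := by
    intro x hx
    rcases hs hx with (hx1 | hx1) | ⟨n, rfl⟩
    · exact ⟨∅, 0, Set.finite_empty, Or.inl (Or.inl hx1)⟩
    · obtain ⟨i, hi⟩ := Set.mem_iUnion.1 hx1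
      refine ⟨{i}, 0, Set.finite_singleton i, Or.inl (Or.inr ?_)⟩
      exact Set.mem_biUnion (Set.mem_singleton i) hi
    · exact ⟨∅, n + 1, Set.finite_empty, Or.inr ⟨n, by omega, rfl⟩⟩
  choose! I n hI hx using h1
  obtain ⟨N, hN⟩ := (hH.image n).bddAbove
  refine ⟨⋃ x ∈ H, I x, N, hH.biUnion hI, ?_⟩
  intro x hxH
  rcases hx x hxH with h | h
  · exact Or.inl (loc_W_mono (Set.subset_biUnion_of_mem (u := I) hxH) h)
  · exact Or.inr (ini_mono (hN ⟨x, hxH, rfl⟩) h)

theorem loc_finB {κ' : Type} {b : κ' → Fin 1 → V} {H : Set V} (hH : H.Finite)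
    (hs : H ⊆ ⋃ k, Set.range (b k)) : ∃ K : Set κ', K.Finite ∧ H ⊆ ⋃ k ∈ K, Set.range (b k) := by
  have h1 : ∀ x, x ∈ H → ∃ k, x ∈ Set.range (b k) := fun x hx => Set.mem_iUnion.1 (hs hx)
  rcases isEmpty_or_nonempty κ' with he | he
  · refine ⟨∅, Set.finite_empty, fun x hx => ?_⟩
    obtain ⟨k, _⟩ := h1 x hx
    exact (he.false k).elim
  · choose! f hf using h1
    exact ⟨f '' H, hH.image f, fun x hx => Set.mem_biUnion ⟨x, hx, rfl⟩ (hf x hx)⟩

/-- realizations of types over `M1` with bases in `T` are independent from `M1` over `T` -/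
theorem loc_base {X : Ctx V G} {κ' : Type} [Countable κ'] {q : κ' → Ty V} {b : κ' → Fin 1 → V}
    {M1 T : Set V} (hM1 : M1.Countable) (hT : T ⊆ M1) (hi : Ind X M1 (fun k => Set.range (b k)))
    {K : Set κ'} (hK : K.Finite) (hq : ∀ k ∈ K, (q k).A ⊆ T ∧ Rl X (q k) M1 (b k)) :
    SI X T (⋃ k ∈ K, Set.range (b k)) M1 := by
  have cT : T.Countable := hM1.mono hT
  induction K, hK using Set.Finite.induction_on with
  | empty =>
    rw [Set.biUnion_empty]
    exact si_empty_left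
  | @insert k K hk _ ih =>
    have ih' := ih fun k' hk' => hq k' (Set.mem_insert_of_mem k hk')
    obtain ⟨h1, h2⟩ := hq k (Set.mem_insert k K)
    have cB : (⋃ k ∈ K, Set.range (b k)).Countable :=
      (Set.to_countable K).biUnion fun k _ => Set.countable_range (b k)
    have cA : (q k).A.Countable := cT.mono h1
    rw [Set.biUnion_insert, Set.union_comm]
    refine si_transl cT cB hM1 (Set.countable_range _) ih' ?_
    have h3 : SI X M1 (Set.range (b k)) (⋃ k ∈ K, Set.range (b k)) := by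
      have := hi {k} K (Set.disjoint_singleton_left.2 hk)
      rwa [Set.biUnion_singleton] at this
    have h4 : SI X (q k).A (Set.range (b k)) (M1 ∪ ⋃ k ∈ K, Set.range (b k)) :=
      si_trans' (Set.countable_range _) hM1 cB (h1.trans hT) h2.2 h3
    have h5 := si_up (A' := T ∪ ⋃ k ∈ K, Set.range (b k)) cA (Set.countable_range _)
      (hM1.union cB) h4 (h1.trans Set.subset_union_left)
      (Set.union_subset (hT.trans (Set.subset_union_left.trans Set.subset_union_right))
        (Set.subset_union_right.trans Set.subset_union_right))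
    exact si_right (cT.union cB) (Set.countable_range _) (hM1.union cB) Set.subset_union_left h5

theorem st_LOC (h1 : ST_LOCI) (h2 : ST_LOCK) (h3 : ST_ZL) (h4 : ST_ISLB) : ST_LOC := by
  intro V G _ _ X a d s t κ _ l z c M1 F0 κ' _ q b M2 γ p hWS hd hWd hM1 hF0 hF0f hq hInd hM2
    hγ hγf hp hpA hpt hpq
  set W : Set V := WW a z c with hW
  set D : Set V := Set.range d with hD
  set B : Set V := ⋃ k, Set.range (b k) with hB
  have cf : ∀ i, (c i).Finite := by
    intro i
    obtain ⟨⟨n, f, hf, _⟩, _⟩ := hWS.z3 i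
    rw [← hf]
    exact Set.finite_range f
  have cM1 : M1.Countable := hM1.1.1
  have hWM : W ∪ D ⊆ M1 := hM1.2.1
  have cWD : (W ∪ D).Countable := cM1.mono hWM
  have cW : W.Countable := cWD.mono Set.subset_union_left
  have cD : D.Countable := cWD.mono Set.subset_union_right
  have cB : B.Countable := Set.countable_iUnion fun k => Set.countable_range (b k)
  have cF0 : F0.Countable := hF0f.countable
  have cS : (W ∪ D ∪ F0 ∪ B).Countable := (cWD.union cF0).union cB
  have ca : a.Countable := hWS.afin.countable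
  have cγ : γ.Countable := hγf.countable
  -- `γ` is isolated over `S`
  obtain ⟨nγ, γt, hγt⟩ := hγf.fin_param
  have hγr : Set.range γt = γ := hγt.2
  obtain ⟨H, hH, hHf, _, _, _, _, hHi⟩ := (h4 V G X _ cS (Fin nγ) γt).2.2.2.1
    (hM2.2.2 nγ γt (by rw [hγr]; exact hγ))
  rw [hγr] at hHi
  -- `F0` is isolated over `W ∪ D`
  obtain ⟨nF, Ft, hFt⟩ := hF0f.fin_param
  have hFr : Set.range Ft = F0 := hFt.2
  obtain ⟨H0, hH0, hH0f, _, _, _, _, hH0i⟩ := (h4 V G X _ cWD (Fin nF) Ft).2.2.2.1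
    (hM1.2.2 nF Ft (by rw [hFr]; exact hF0))
  rw [hFr] at hH0i
  -- finite parts
  obtain ⟨K0, hK0, hHB⟩ := loc_finB (b := b) (H := H ∩ B) (hHf.inter_of_left _)
    Set.inter_subset_right
  obtain ⟨I0, n, hI0, hP⟩ := loc_finW (a := a) (z := z) (c := c) (d := d)
    (H := (H ∩ (W ∪ D)) ∪ H0 ∪ ⋃ k ∈ K0, ((q k).A ∩ (W ∪ D)))
    (((hHf.inter_of_left _).union hH0f).union
      (hK0.biUnion fun k _ => (hq k).2.1.inter_of_left _))
    (Set.union_subset (Set.union_subset Set.inter_subset_right hH0)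
      (Set.iUnion₂_subset fun k _ => Set.inter_subset_right))
  set σ : Set V := loc_W a z c I0 with hσ
  set β : Set V := ⋃ k ∈ K0, Set.range (b k) with hβ
  have hσf : σ.Finite := hWS.afin.union (hI0.biUnion fun i _ => (Set.finite_range _).union (cf i))
  have hβf : β.Finite := hK0.biUnion fun k _ => Set.finite_range _
  have cσ : σ.Countable := hσf.countable
  have cβ : β.Countable := hβf.countable
  have hσW : σ ⊆ W := loc_W_sub
  have hβB : β ⊆ B := Set.iUnion₂_subset fun k _ => Set.subset_iUnion (fun k => Set.range (b k)) k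
  have haσ : a ⊆ σ := Set.subset_union_left
  have a1 : H ⊆ σ ∪ D ∪ F0 ∪ β := by
    intro x hx
    rcases hH hx with (h | h) | h
    · rcases hP (Or.inl (Or.inl ⟨hx, h⟩)) with h' | h'
      · exact Or.inl (Or.inl (Or.inl h'))
      · exact Or.inl (Or.inl (Or.inr (ini_subset d n h')))
    · exact Or.inl (Or.inr h)
    · exact Or.inr (hHB ⟨hx, h⟩)
  have a2 : H0 ⊆ σ ∪ D := by
    intro x hx
    rcases hP (Or.inl (Or.inr hx)) with h' | h'
    · exact Or.inl h'
    · exact Or.inr (ini_subset d n h')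
  have a3 : ∀ k ∈ K0, (q k).A ⊆ σ ∪ D ∪ F0 := by
    intro k hk x hx
    rcases (hq k).2.2.1 hx with h | h
    · rcases hP (Or.inr (Set.mem_biUnion hk ⟨hx, h⟩)) with h' | h'
      · exact Or.inl (Or.inl h')
      · exact Or.inl (Or.inr (ini_subset d n h'))
    · exact Or.inr h
  -- the set `F`
  have hAf : (γ ∪ σ ∪ F0 ∪ β).Finite := ((hγf.union hσf).union hF0f).union hβf
  obtain ⟨n1, hn1⟩ := h3 V G X d hd (γ ∪ σ ∪ F0 ∪ β) p hAf hp
    (hpA.trans fun x hx => Or.inl (Or.inl (Or.inl hx)))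
  refine ⟨σ ∪ ini d n1 ∪ F0 ∪ β, ?_, ((hσf.union (ini_finite d n1)).union hF0f).union hβf, ?_⟩
  · intro x hx
    rcases hx with ((h | h) | h) | h
    · exact Or.inl (Or.inl (Or.inl (hσW h)))
    · exact Or.inl (Or.inl (Or.inr (ini_subset d n1 h)))
    · exact Or.inl (Or.inr h)
    · exact Or.inr (hβB h)
  intro y hy
  have cp : p.A.Countable := hp.cnt
  have cE : (γ ∪ σ ∪ F0 ∪ β ∪ D).Countable := hAf.countable.union cD
  have y1 : Rl X p (γ ∪ σ ∪ F0 ∪ β ∪ D) y := by
    refine hn1 n1 le_rfl y (loc_rl_mono cp ?_ ?_ hy)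
    · exact (hγf.union (((hσf.union (ini_finite d n1)).union hF0f).union hβf)).countable
    · intro x hx
      rcases hx with (((h | h) | h) | h) | h
      · exact Or.inl h
      · exact Or.inr (Or.inl (Or.inl (Or.inl h)))
      · exact Or.inr (Or.inl (Or.inr h))
      · exact Or.inr (Or.inr h)
      · exact Or.inr (Or.inl (Or.inl (Or.inr h)))
  -- the rest of the basis
  set W' : Set V := ⋃ i ∈ I0ᶜ, (Set.range (z i) ∪ c i) with hW'
  have hW'W : W' ⊆ W := by
    rw [hW', hW]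
    exact (Set.iUnion₂_subset fun i _ => Set.subset_iUnion
      (fun i => Set.range (z i) ∪ c i) i).trans Set.subset_union_right
  have cW' : W'.Countable := cW.mono hW'W
  have cT1 : (σ ∪ D).Countable := cσ.union cD
  have cT2 : (σ ∪ D ∪ F0).Countable := cT1.union cF0
  have cT3 : (σ ∪ D ∪ F0 ∪ β).Countable := cT2.union cβ
  have i1 : SI X a W' σ := by
    have := hWS.ind I0ᶜ I0 disjoint_compl_left
    exact (si_add_base ca cW' (cσ.mono Set.subset_union_right)).2 this
  have i2 : SI X σ W' D :=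
    si_left hW'W (si_upl ca cW cD hWd haσ (hσW.trans Set.subset_union_right))
  have i3 : SI X a W' (σ ∪ D) := si_trans' cW' cσ cD haσ i1 i2
  have i4 : SI X (σ ∪ D) W' F0 := by
    have h5 : SI X (σ ∪ D) F0 (W ∪ D) := si_up (hH0f.countable) cF0 cWD hH0i a2
      ((Set.union_subset_union_left D hσW).trans Set.subset_union_right)
    exact si_symm cT1 cF0 cW' (si_right cT1 cF0 cWD (hW'W.trans Set.subset_union_left) h5)
  have i5 : SI X a W' (σ ∪ D ∪ F0) :=
    si_trans' cW' cT1 cF0 (haσ.trans Set.subset_union_left) i3 i4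
  have hTM : σ ∪ D ∪ F0 ⊆ M1 :=
    Set.union_subset ((Set.union_subset_union_left D hσW).trans hWM) hF0
  have i6 : SI X (σ ∪ D ∪ F0) W' β := by
    have h5 : SI X (σ ∪ D ∪ F0) β M1 := loc_base cM1 hTM hInd hK0
      fun k hk => ⟨a3 k hk, (hq k).2.2.2⟩
    exact si_symm cT2 cβ cW' (si_right cT2 cβ cM1
      (hW'W.trans (Set.subset_union_left.trans hWM)) h5)
  have haT : a ⊆ σ ∪ D ∪ F0 := haσ.trans (Set.subset_union_left.trans Set.subset_union_left)
  have i7 : SI X a W' (σ ∪ D ∪ F0 ∪ β) := si_trans' cW' cT2 cβ haT i5 i6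
  have hTS : σ ∪ D ∪ F0 ∪ β ⊆ W ∪ D ∪ F0 ∪ B :=
    Set.union_subset_union (Set.union_subset_union_left F0 (Set.union_subset_union_left D hσW))
      hβB
  have i8 : SI X (σ ∪ D ∪ F0 ∪ β) W' γ := by
    have h5 : SI X (σ ∪ D ∪ F0 ∪ β) γ (W ∪ D ∪ F0 ∪ B) := si_up hHf.countable cγ cS hHi a1
      (hTS.trans Set.subset_union_right)
    exact si_symm cT3 cγ cW' (si_right cT3 cγ cS (fun x hx => Or.inl (Or.inl (Or.inl
      (hW'W hx)))) h5)
  have i9 : SI X a W' (σ ∪ D ∪ F0 ∪ β ∪ γ) :=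
    si_trans' cW' cT3 cγ (haT.trans Set.subset_union_left) i7 i8
  have hE1 : γ ∪ σ ∪ F0 ∪ β ∪ D ⊆ σ ∪ D ∪ F0 ∪ β ∪ γ := by
    intro x hx
    rcases hx with (((h | h) | h) | h) | h
    · exact Or.inr h
    · exact Or.inl (Or.inl (Or.inl (Or.inl h)))
    · exact Or.inl (Or.inl (Or.inr h))
    · exact Or.inl (Or.inr h)
    · exact Or.inl (Or.inl (Or.inl (Or.inr h)))
  have i10 : SI X a W' (γ ∪ σ ∪ F0 ∪ β ∪ D) := si_right ca cW' (cT3.union cγ) hE1 i9
  have hpE : p.A ⊆ γ ∪ σ ∪ F0 ∪ β ∪ D :=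
    hpA.trans fun x hx => Or.inl (Or.inl (Or.inl (Or.inl hx)))
  have haE : a ⊆ γ ∪ σ ∪ F0 ∪ β ∪ D := fun x hx => Or.inl (Or.inl (Or.inl (Or.inr (haσ hx))))
  have y2 : Rl X p (γ ∪ σ ∪ F0 ∪ β ∪ D ∪ W') y :=
    h1 V G X a s t κ l z c I0ᶜ (γ ∪ σ ∪ F0 ∪ β ∪ D) p y hWS cE haE i10 hp hpE hpt y1
  have hWσ : W ⊆ σ ∪ W' := by
    intro x hx
    rcases hx with h | h
    · exact Or.inl (haσ h)
    · obtain ⟨i, hi⟩ := Set.mem_iUnion.1 h
      by_cases hiI : i ∈ I0
      · exact Or.inl (Or.inr (Set.mem_biUnion hiI hi))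
      · exact Or.inr (Set.mem_biUnion hiI hi)
  -- the rest of the realizations
  have cE1 : (γ ∪ σ ∪ F0 ∪ β ∪ D ∪ W').Countable := cE.union cW'
  have y3 : Rl X p (γ ∪ σ ∪ F0 ∪ β ∪ D ∪ W' ∪ ⋃ k ∈ K0ᶜ, Set.range (b k)) y := by
    refine h2 V G X κ' q b K0ᶜ (γ ∪ σ ∪ F0 ∪ β ∪ D ∪ W') p y cE1 ?_ hp
      (hpE.trans Set.subset_union_left) (fun k _ => hpq k) y2
    intro k hk
    obtain ⟨k1, k2, k3, k4⟩ := hq k
    have k3' : (q k).A ⊆ M1 := k3.trans (Set.union_subset hWM hF0)
    refine ⟨k1, ?_, ?_⟩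
    · intro x hx
      rcases k3 hx with (h | h) | h
      · rcases hWσ h with h | h
        · exact Or.inl (Or.inl (Or.inl (Or.inl (Or.inr h))))
        · exact Or.inr h
      · exact Or.inl (Or.inr h)
      · exact Or.inl (Or.inl (Or.inl (Or.inr h)))
    · set R : Set V := ⋃ k' ∈ ({k}ᶜ : Set κ'), Set.range (b k') with hR
      have cR : R.Countable :=
        (Set.to_countable _).biUnion fun k _ => Set.countable_range (b k)
      have r1 : SI X M1 (Set.range (b k)) R := by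
        have := hInd {k} {k}ᶜ disjoint_compl_right
        rwa [Set.biUnion_singleton] at this
      have r2 : SI X (q k).A (Set.range (b k)) (M1 ∪ R) :=
        si_trans' (Set.countable_range _) cM1 cR k3' k4.2 r1
      have cT : (W ∪ D ∪ F0 ∪ R).Countable := (cWD.union cF0).union cR
      have hβR : β ⊆ R := by
        refine Set.biUnion_subset_biUnion_left fun k' hk' => ?_
        intro h
        rw [Set.mem_singleton_iff] at h
        exact hk (h ▸ hk')
      have hRB : R ⊆ B := Set.iUnion₂_subset fun k _ => Set.subset_iUnion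
        (fun k => Set.range (b k)) k
      have r3 : SI X (q k).A (Set.range (b k)) (W ∪ D ∪ F0 ∪ R) :=
        si_right k1.cnt (Set.countable_range _) (cM1.union cR)
          (Set.union_subset_union_left R (Set.union_subset hWM hF0)) r2
      have hHT : H ⊆ W ∪ D ∪ F0 ∪ R := a1.trans
        (Set.union_subset_union (Set.union_subset_union_left F0
          (Set.union_subset_union_left D hσW)) hβR)
      have r4 : SI X (W ∪ D ∪ F0 ∪ R) γ (W ∪ D ∪ F0 ∪ B) := si_up hHf.countable cγ cS hHi hHT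
        ((Set.union_subset_union_right _ hRB).trans Set.subset_union_right)
      have r5 : SI X (W ∪ D ∪ F0 ∪ R) (Set.range (b k)) γ :=
        si_symm cT cγ (Set.countable_range _) (si_right cT cγ cS
          ((Set.subset_iUnion (fun k => Set.range (b k)) k).trans Set.subset_union_right) r4)
      have r6 : SI X (q k).A (Set.range (b k)) (W ∪ D ∪ F0 ∪ R ∪ γ) :=
        si_trans' (Set.countable_range _) cT cγ (k3.trans Set.subset_union_left) r3 r5
      refine ⟨k4.1, si_right k1.cnt (Set.countable_range _) (cT.union cγ) ?_ r6⟩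
      intro x hx
      rcases hx with (((((h | h) | h) | h) | h) | h) | h
      · exact Or.inr h
      · exact Or.inl (Or.inl (Or.inl (Or.inl (hσW h))))
      · exact Or.inl (Or.inl (Or.inr h))
      · exact Or.inl (Or.inr (hβR h))
      · exact Or.inl (Or.inl (Or.inl (Or.inr h)))
      · exact Or.inl (Or.inl (Or.inl (Or.inl (hW'W h))))
      · refine Or.inl (Or.inr ?_)
        obtain ⟨k', hk', hx'⟩ := Set.mem_iUnion₂.1 h
        exact Set.mem_biUnion (x := k') hk'.2 hx'
  refine loc_rl_mono cp (cE1.union ((Set.to_countable _).biUnion fun k _ =>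
    Set.countable_range (b k))) ?_ y3
  intro x hx
  rcases hx with h | (((h | h) | h) | h)
  · exact Or.inl (Or.inl (Or.inl (Or.inl (Or.inl (Or.inl h)))))
  · rcases hWσ h with h | h
    · exact Or.inl (Or.inl (Or.inl (Or.inl (Or.inl (Or.inr h)))))
    · exact Or.inl (Or.inr h)
  · exact Or.inl (Or.inl (Or.inr h))
  · exact Or.inl (Or.inl (Or.inl (Or.inl (Or.inr h))))
  · obtain ⟨k, hk⟩ := Set.mem_iUnion.1 h
    by_cases hkK : k ∈ K0
    · exact Or.inl (Or.inl (Or.inl (Or.inr (Set.mem_biUnion hkK hk))))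
    · exact Or.inr (Set.mem_biUnion (x := k) hkK hk)

end Pool.Agent.Helper90.MZ
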