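import Pool.Agent.Helper90.MZ.StmtsA

set_option autoImplicit false

namespace Pool.Agent.Helper90.MZ

open Pool.Agent.Helper90.TS

theorem st_SRDN (h1 : ST_SRDA) (h2 : ST_SRDB) (h3 : ST_SRDC) (h4 : ST_OFN) (h5 : ST_NOEQ)
    (h6 : ST_INVA) (h7 : ST_PRIM) (h8 : ST_MDLB) (h9 : ST_RLB) : ST_SRDN := by
  intro V G _ _ X M M1 N1 s q hM hM1 hN1 hMM1 hMN1 hind hs hsA hq hqA hno
  obtain ⟨n1, n2, n3⟩ := h5 V G X
  have cM : M.Countable := hM.1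
  have cM1 : M1.Countable := hM1.1
  have cN1 : N1.Countable := hN1.1
  obtain ⟨g, hg, hgi⟩ := si_ex (X := X) cN1 cM1 cM1
  have hgM : g ∈ Fx G M := fx_anti hMN1 hg
  have cg : (tr g M1).Countable := tr_countable g cM1
  have i1 : SI X M (tr g M1) N1 := (si_fx_left cM cM1 cN1 (fx_union.2 ⟨hgM, hg⟩)).2 hind
  have i2 : SI X M (tr g M1) (N1 ∪ M1) := si_trans' cg cN1 cM1 hMN1 i1 hgi
  have i3 : SI X M (tr g M1) M1 :=
    si_right cM cg (cN1.union cM1) Set.subset_union_right i2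
  have sg : SR X (mv g s) := (h6 V G X g).2.2.1 s hs
  have sgq : SR X (mv g q) := (h6 V G X g).2.2.1 q hq
  have e1 : NO X (mv g s) (mv g q) := (h6 V G X g).2.2.2.1 s q hno
  have e2 : NO X (mv g q) q :=
    ((h6 V G X g).2.2.2.2.2.2.2.2.2.2.2 q hq (fx_anti hqA hg)).2.2.2
  have e3 : NO X (mv g s) q := n3 _ _ _ sg sgq hq e1 e2
  have e4 : NO X s (mv g s) := n3 _ _ _ hs hq sg hno (n2 _ _ e3)
  obtain ⟨α, θ, hθ, hdg, hnof, hmin⟩ := h1 V G X M s hM hs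
  obtain ⟨d, hd⟩ := (h9 V G X s hs M1 cM1).1
  have cd : (M1 ∪ Set.range d).Countable := cM1.union (Set.countable_range d)
  obtain ⟨N, hN, hNs, _⟩ := (h8 V G X).2.1 (M1 ∪ Set.range d) ∅ (M1 ∪ Set.range d) le_rfl cd
    Set.countable_empty si_empty_right
  obtain ⟨M3, _, hM3⟩ := h7 V G X (M1 ∪ Set.range d) N hN hNs
  have hsub := hM3.2.1
  obtain ⟨e, heθ, heM3, hne⟩ := h4 V G X s M M1 M3 θ d hs hMM1 hM1 hsA hθ hnof hd hM3.1
    (Set.subset_union_left.trans hsub) (Set.subset_union_right.trans hsub)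
  have hrk : X.rk M1 e = α := h2 V G X M M1 s g α θ d e hM hM1 hMM1 hs hsA hgM i3 e4 hθ hdg hmin
    hd heθ hne
  obtain ⟨r1, r2⟩ := h3 V G X M M1 M3 s α θ d e hM hM1 hMM1 hs hsA hθ hdg hmin hd hM3 heθ heM3
    hne hrk
  exact ⟨⟨M, θ, e⟩, r1, le_rfl, r2⟩

end Pool.Agent.Helper90.MZ
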