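import Pool.Agent.Helper90.MZ.StmtsZ

set_option autoImplicit false

namespace Pool.Agent.Helper90.MZ

open Pool.Agent.Helper90.TS

variable {V G : Type} [Group G] [MulAction G V]

theorem zq_chain {C : Set (Set V)} (hC : IsChain (· ⊆ ·) C) (hne : C.Nonempty) {u : Set V}
    (hu : u.Finite) (h : u ⊆ ⋃₀ C) : ∃ M ∈ C, u ⊆ M := by
  induction u, hu using Set.Finite.induction_on with
  | empty =>
    obtain ⟨M, hM⟩ := hne
    exact ⟨M, hM, Set.empty_subset _⟩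
  | @insert x u _ _ ih =>
    obtain ⟨M, hM, huM⟩ := ih ((Set.subset_insert x u).trans h)
    obtain ⟨M', hM', hx⟩ := h (Set.mem_insert x u)
    rcases hC.total hM hM' with h1 | h1
    · exact ⟨M', hM', Set.insert_subset hx (huM.trans h1)⟩
    · exact ⟨M, hM, Set.insert_subset (h1 hx) huM⟩

theorem zq_union {X : Ctx V G} {S Q : Set V} (hQ : Q.Countable) {C : Set (Set V)}
    (hC : IsChain (· ⊆ ·) C) (hne : C.Nonempty) (h : ∀ M ∈ C, M ⊆ Q ∧ Atm X S M) :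
    Atm X S (⋃₀ C) := by
  have hcQ : ⋃₀ C ⊆ Q := Set.sUnion_subset fun M hM => (h M hM).1
  have hc : (⋃₀ C).Countable := hQ.mono hcQ
  refine ⟨⟨hc, ?_⟩, ?_, ?_⟩
  · intro n D hD hDn
    obtain ⟨m, u, E, hu, hE, hDE⟩ := st_FSUP V G X (⋃₀ C) hc (Fin n) D hD
    obtain ⟨M, hM, huM⟩ := zq_chain hC hne (Set.finite_range u) hu
    have hDM : X.Ov M D := by
      rw [hDE]
      exact ov_sec' (ov_mono X (Set.empty_subset M) hE) huM
    obtain ⟨x, hx, hxM⟩ := (h M hM).2.1.2 n D hDM hDn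
    exact ⟨x, hx, hxM.trans (Set.subset_sUnion_of_mem hM)⟩
  · obtain ⟨M, hM⟩ := hne
    exact (h M hM).2.2.1.trans (Set.subset_sUnion_of_mem hM)
  · intro n c hcr
    obtain ⟨M, hM, hcM⟩ := zq_chain hC hne (Set.finite_range c) hcr
    exact (h M hM).2.2.2 n c hcM

theorem st_ZQ (h1 : ST_LOC) (h2 : ST_LOB) (h3 : ST_ZQA) (h4 : ST_SRX) (h5 : ST_SRFIN)
    (h6 : ST_NWO) (h7 : ST_PRIM) (h8 : ST_ATMB) (h9 : ST_ISLB) (h10 : ST_NOEQ)
    (h11 : ST_RLB) : ST_ZQ := by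
  intro V G _ _ X Q a d s t κ _ l z c M1 F0 Ξ _ q κ' _ ξ b hQ hWQ hd hWd hM1Q hM1 hF0 hF0f
    hLS hBS
  obtain ⟨nr, ns, nt⟩ := h10 V G X
  set W : Set V := WW a z c with hW
  set D : Set V := Set.range d with hD
  set B : Set V := ⋃ k, Set.range (b k) with hB
  have cM1 : M1.Countable := hM1.1.1
  have hWM : W ∪ D ⊆ M1 := hM1.2.1
  have hBQ : B ⊆ Q := Set.iUnion_subset fun k => hBS.inQ k
  have hqM : ∀ x, (q x).A ⊆ M1 := fun x =>
    (hLS.en x).2.trans (Set.union_subset hWM hF0)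
  -- the finite sets `F x`
  have hF : ∀ x, ∃ F : Set V, F ⊆ W ∪ D ∪ (q x).A ∧ F.Finite ∧ (q x).A ⊆ F ∧
      Om X (q x) F M1 := by
    intro x
    obtain ⟨F, k1, k2, k3, k4⟩ := h2 V G X a d s t κ l z c M1 (q x) hWQ.toWS hd hWd hM1
      (hLS.en x).1 (hqM x) (hLS.nt x)
    exact ⟨F, k1, k2, k3, k4⟩
  choose F hF1 hF2 hF3 hF4 using hF
  have hinj : ∀ j k, q (ξ j) = q (ξ k) → ξ j = ξ k := by
    intro j k hjk
    by_contra hne
    exact hLS.no _ _ hne (hjk ▸ nr (q (ξ j)) (hLS.en _).1.1)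
  obtain ⟨M2', hM2'Q, hM2'⟩ := h7 V G X (M1 ∪ B) Q hQ (Set.union_subset hM1Q hBQ)
  have hA2 : Atm X (W ∪ D ∪ F0 ∪ B) M2' := by
    refine h3 V G X (W ∪ D) M1 F0 κ' (fun k => q (ξ k)) (fun k => F (ξ k)) b M2' hM1 hF0 hF0f
      ?_ ?_ ?_ hBS.ind hM2'
    · intro k
      refine ⟨(hLS.en _).1.1, hF3 _, hF2 _, ?_, hF4 _, hBS.rl k⟩
      exact (hF1 _).trans (Set.union_subset Set.subset_union_left (hLS.en _).2)
    · intro j k
      by_cases hjk : ξ j = ξ k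
      · left
        change q (ξ j) = q (ξ k)
        rw [hjk]
      · exact Or.inr (hLS.no _ _ hjk)
    · intro j k hjk
      change F (ξ j) = F (ξ k)
      rw [hinj j k hjk]
  set S : Set V := W ∪ D ∪ F0 ∪ B with hS
  -- Zorn
  obtain ⟨M2, hM2s, hmax⟩ := zorn_subset_nonempty {M : Set V | M ⊆ Q ∧ Atm X S M}
    (by
      intro C hCs hC hne
      refine ⟨⋃₀ C, ⟨Set.sUnion_subset fun M hM => (hCs hM).1, ?_⟩, fun M hM =>
        Set.subset_sUnion_of_mem hM⟩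
      exact zq_union hQ.1 hC hne fun M hM => hCs hM) M2' ⟨hM2'Q, hA2⟩
  have hM2Q : M2 ⊆ Q := hmax.prop.1
  have hM2 : Atm X S M2 := hmax.prop.2
  have hM1M2 : M1 ∪ B ⊆ M2 := hM2'.2.1.trans hM2s
  have hSM2 : S ⊆ M2 := hM2.2.1
  have cM2 : M2.Countable := hM2.1.1
  have cS : S.Countable := cM2.mono hSM2
  suffices hEq : M2 = Q by
    rw [← hEq]
    exact hM2
  by_contra hne
  obtain ⟨p, hp, hpA, hpQ, hpM⟩ := h4 V G X M2 Q hM2.1 hQ hM2Q hne
  obtain ⟨A0, hA0, hA0f, hsr⟩ := h5 V G X p hp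
  obtain ⟨s1, s2, s3, s4, _⟩ := hsr A0 le_rfl hA0
  set p0 : Ty V := ⟨A0, p.D, p.z⟩ with hp0
  rw [hpA] at hA0 s4
  have hz : Rl X p0 M2 p.z := ⟨eqv_refl _ _, s4⟩
  have hWM2 : W ⊆ M2 := Set.subset_union_left.trans (hWM.trans (Set.subset_union_left.trans hM1M2))
  have n1 : ∀ j, ¬ NO X p0 (t j) := by
    intro j hno
    obtain ⟨t1, t2⟩ := hWQ.tsr j
    have t3 : (t j).A ⊆ M2 := t2.trans (Set.subset_union_left.trans hWM2)
    obtain ⟨y, hyQ, hy⟩ := h6 V G X (t j) p0 M2 Q p.z t1 s1 (ns _ _ hno) hM2.1 t3 hA0 hz hQ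
      hM2Q hpQ
    exact hWQ.max j y hyQ ⟨hy.1, si_right t1.cnt (Set.countable_range _) cM2 hWM2 hy.2⟩
  have n2 : ∀ x, ¬ NO X p0 (q x) := by
    intro x hno
    have t1 := (hLS.en x).1.1
    have t3 : (q x).A ⊆ M2 := (hqM x).trans (Set.subset_union_left.trans hM1M2)
    obtain ⟨y, hyQ, hy⟩ := h6 V G X (q x) p0 M2 Q p.z t1 s1 (ns _ _ hno) hM2.1 t3 hA0 hz hQ
      hM2Q hpQ
    exact hBS.max x y hyQ ⟨hy.1, si_right t1.cnt (Set.countable_range _) cM2 hM1M2 hy.2⟩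
  have n3 : ¬ ENI X p0 := by
    intro hen
    rcases hLS.full p0 hen (hA0.trans hM2Q) with ⟨x, hx⟩ | ⟨j, hj⟩
    · exact n2 x hx
    · exact n1 j hj
  -- realizations of `p0|F` are isolated
  have n4 : ∀ F' : Set V, F'.Finite → A0 ⊆ F' → Rl X p0 F' p.z → Isl X F' p.z := by
    intro F' hF'f hF' hr
    have : ∃ y, Rl X p0 F' y ∧ Isl X F' y := by
      by_contra hcon
      push Not at hcon
      exact n3 ⟨s1, hA0f, F', hF'f, hF', hcon⟩
    obtain ⟨y, hy1, hy2⟩ := this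
    have h := (h11 V G X p0 s1 F' hF'f.countable).2.1 y p.z hy1 hr
    exact (h9 V G X F' hF'f.countable (Fin 1) y).2.2.2.2.2.2 p.z
      (eqv_mono Set.subset_union_right h) hy2
  -- `z` is isolated over `S ∪ γ`
  have n5 : ∀ γ : Set V, γ.Finite → γ ⊆ M2 → A0 ⊆ γ → Isl X (S ∪ γ) p.z := by
    intro γ hγf hγ hA0γ
    obtain ⟨F', hF'S, hF'f, hF'⟩ := h1 V G X a d s t κ l z c M1 F0 κ' (fun k => q (ξ k)) b M2 γ
      p0 hWQ.toWS hd hWd hM1 hF0 hF0f
      (fun k => ⟨(hLS.en _).1.1, (hLS.en _).1.2.1, (hLS.en _).2, hBS.rl k⟩) hBS.ind hM2 hγ hγf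
      s1 hA0γ n1 (fun k => n2 (ξ k))
    have hfin : (γ ∪ F').Finite := hγf.union hF'f
    have hsub : γ ∪ F' ⊆ M2 := Set.union_subset hγ (hF'S.trans hSM2)
    have hr : Rl X p0 (γ ∪ F') p.z :=
      ⟨hz.1, si_right hA0f.countable (Set.countable_range _) cM2 hsub hz.2⟩
    obtain ⟨D', hD'1, hD'2, hD'3⟩ := n4 (γ ∪ F') hfin (hA0γ.trans Set.subset_union_left) hr
    have cγS : (γ ∪ S).Countable := hγf.countable.union cS
    refine ⟨D', ov_mono X (Set.union_subset Set.subset_union_right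
      (hF'S.trans Set.subset_union_left)) hD'1, hD'2, ?_⟩
    intro x hx
    have hrx : Rl X p0 (γ ∪ F') x :=
      (h11 V G X p0 s1 (γ ∪ F') hfin.countable).2.2.2.2.2.1 p.z x hr
        (by
          have e : p0.A ∪ (γ ∪ F') = γ ∪ F' := Set.union_eq_self_of_subset_left
            (hA0γ.trans Set.subset_union_left)
          rw [e]
          exact hD'3 x hx)
    have h := (h11 V G X p0 s1 (γ ∪ S) cγS).2.1 p.z x (hF' _ hr) (hF' _ hrx)
    exact eqv_mono (Set.union_subset (Set.subset_union_right.trans Set.subset_union_right)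
      (Set.subset_union_left.trans Set.subset_union_right)) h
  -- enumeration of `A0`
  obtain ⟨m, α, hα⟩ := hA0f.fin_param
  have hαr : Set.range α = A0 := hα.2
  have n6 : ∀ (n : ℕ) (e : Fin n → V), Set.range e ⊆ M2 → Isl X S p.z ∧
      Isl X (S ∪ Set.range p.z) e := by
    intro n e he
    have hr1 : Set.range (Sum.elim e α) = Set.range e ∪ A0 := by
      rw [Set.Sum.elim_range, hαr]
    have hr2 : Set.range (Sum.elim e α) ⊆ M2 := by
      rw [hr1]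
      exact Set.union_subset he hA0
    have k1 : Isl X S (Sum.elim e α) :=
      (h8 V G X S M2).2.2.2.2.2 hM2 (Fin n ⊕ Fin m) (Sum.elim e α) hr2
    have k2 : Isl X (S ∪ Set.range (Sum.elim e α)) p.z :=
      n5 _ (Set.finite_range _) hr2 (by
        rw [hr1]
        exact Set.subset_union_right)
    have k3 : Isl X S (Sum.elim (Sum.elim e α) p.z) :=
      ((h9 V G X S cS (Fin n ⊕ Fin m) (Sum.elim e α)).1 (Fin 1) p.z).2 ⟨k1, k2⟩
    have k4 : Isl X S (Sum.elim p.z e) := by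
      refine (h9 V G X S cS _ (Sum.elim (Sum.elim e α) p.z)).2.1 _ (Sum.elim p.z e) k3 ?_
      rw [Set.Sum.elim_range, Set.Sum.elim_range, hr1]
      intro x hx
      rcases hx with hx | hx
      · exact Or.inr (Or.inr hx)
      · exact Or.inr (Or.inl (Or.inl hx))
    exact ((h9 V G X S cS (Fin 1) p.z).1 (Fin n) e).1 k4
  obtain ⟨M3, hM3Q, hM3⟩ := h7 V G X (M2 ∪ Set.range p.z) Q hQ (Set.union_subset hM2Q hpQ)
  have k5 : Atm X (S ∪ Set.range p.z) M3 :=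
    (h8 V G X S M2).2.2.2.2.1 (Set.range p.z) M3 hM3 hSM2 fun n e he => (n6 n e he).2
  have k6 : Isl X S p.z := (n6 0 (fun i => i.elim0) (by
    rintro _ ⟨i, _⟩
    exact i.elim0)).1
  have k7 : Atm X S M3 := (h8 V G X S M3).2.1 (Fin 1) p.z k6 k5
  have k8 : M3 ⊆ M2 := hmax.le_of_ge ⟨hM3Q, k7⟩ (Set.subset_union_left.trans hM3.2.1)
  exact hpM ((Set.subset_union_right.trans hM3.2.1).trans k8)

end Pool.Agent.Helper90.MZ
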